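import Pool.Agent.K4H18.CH.H10

set_option autoImplicit false

/-!
# Chen's theorem in Schinzel's Goldbach-type problem, for almost all `N`

For arbitrary polynomials `F_1, …, F_g, G` with integer coefficients, for all but `M / log^U M` of the
`N ≤ M`, and for all nonzero integers `h` with `|h| ≤ log^A N` at once for which there is no fixed prime
divisor: the number of primes `p` such that `N - G(p)` is a prime, `p + h` has at most two prime factors
and the `F_i(p)` have a bounded number of prime factors, none of them small, is at least a constant times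
the number predicted by the sieve density.
-/

namespace Pool.Agent.Results.MP_0bf1d2_nt.ChenArguments

open Finset Polynomial

variable {g : ℕ}

/-- `k` is a nonzero integer with at most `t` prime factors, counted with multiplicity, all of
them larger than `y` -/
def Rough (t : ℕ) (y : ℝ) (k : ℤ) : Prop :=
  k ≠ 0 ∧ k.natAbs.primeFactorsList.length ≤ t ∧ ∀ q : ℕ, q.Prime → (q : ℤ) ∣ k → y < q

/-- `X(N)`: the number of the positive integers `n` with `N - G(n) > 0` -/
noncomputable def XN (G : ℤ[X]) (N : ℕ) : ℕ := {n : ℕ | 1 ≤ n ∧ 0 < (N : ℤ) - G.eval (n : ℤ)}.ncard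

/-- no prime divides `n (n + h) F_1(n) ⋯ F_g(n) (N - G(n))` for all integers `n` -/
def NoFixedDivisor (F : Fin g → ℤ[X]) (G : ℤ[X]) (N : ℕ) (h : ℤ) : Prop :=
  ∀ q : ℕ, q.Prime → ∃ n : ℤ, ¬ (q : ℤ) ∣ n * (n + h) * (∏ i, (F i).eval n) * ((N : ℤ) - G.eval n)

/-- the number of the residues `r` modulo `q` with `r (r + h) F_1(r) ⋯ F_g(r) (N - G(r)) ≡ 0` -/
noncomputable def omega (F : Fin g → ℤ[X]) (G : ℤ[X]) (N : ℕ) (h : ℤ) (q : ℕ) : ℕ :=
  ((range q).filter (fun r : ℕ =>
    (q : ℤ) ∣ (r : ℤ) * (r + h) * (∏ i, (F i).eval (r : ℤ)) * ((N : ℤ) - G.eval (r : ℤ)))).card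

/-- `X(N) ∏_{q ≤ X(N)} (1 - ω(q) / q)`, the product over the primes -/
noncomputable def expected (F : Fin g → ℤ[X]) (G : ℤ[X]) (N : ℕ) (h : ℤ) : ℝ :=
  XN G N * ∏ q ∈ (Icc 1 (XN G N)).filter Nat.Prime, (1 - (omega F G N h q : ℝ) / q)

/-- the primes `p` for which `N - G(p)` is a (positive) prime, `p + h` has at most two prime
factors, all `> X(N) ^ (1/9)`, and every `F_i(p)` has at most `t` prime factors, all
`> X(N) ^ (1/t)` -/
def Arguments (t : ℕ) (F : Fin g → ℤ[X]) (G : ℤ[X]) (N : ℕ) (h : ℤ) : Set ℕ :=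
  {p : ℕ | p.Prime ∧ ((N : ℤ) - G.eval (p : ℤ)).toNat.Prime ∧
    Rough 2 ((XN G N : ℝ) ^ (1 / 9 : ℝ)) (p + h) ∧
    ∀ i, Rough t ((XN G N : ℝ) ^ (1 / (t : ℝ))) ((F i).eval (p : ℤ))}

open Classical in
/-- **Chen's theorem in Schinzel's Goldbach-type problem.** For every `D` there are `t` and `c > 0`
such that for all `F_1, …, F_g, G` of total degree at most `D`, `G` nonconstant with positive leading
coefficient, and all `A`, `U`, for all sufficiently large `M`: all but at most `M / log^U M` of the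
`N ≤ M` satisfy `|Arguments| ≥ c * expected` for every nonzero integer `h` with `|h| ≤ log^A N` for
which `x (x + h) F_1 ⋯ F_g (N - G)` has no fixed prime divisor. -/
theorem result (D : ℕ) : ∃ t : ℕ, 1 ≤ t ∧ ∃ c : ℝ, 0 < c ∧ ∀ (g : ℕ) (F : Fin g → ℤ[X]) (G : ℤ[X]),
    1 ≤ G.natDegree → 0 < G.leadingCoeff → (∑ i, (F i).natDegree) + G.natDegree ≤ D →
    ∀ A U : ℕ, ∃ M₀ : ℕ, ∀ M : ℕ, M₀ ≤ M →
    (((Icc 1 M).filter (fun N : ℕ => ¬ ∀ h : ℤ, h ≠ 0 → (|h| : ℝ) ≤ Real.log N ^ A →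
      NoFixedDivisor F G N h → c * expected F G N h ≤ ((Arguments t F G N h).ncard : ℝ))).card : ℝ)
      ≤ M / Real.log M ^ U := by
  obtain ⟨t, ht, c, hc, h⟩ := Pool.Agent.K4H18.CH.almost D
  refine ⟨t, ht, c, hc, ?_⟩
  intro g F G hG hGl hD A U
  obtain ⟨M₀, hM⟩ := h g F G hG hGl hD A U
  refine ⟨M₀, fun M hMM => le_trans ?_ (hM M hMM)⟩
  apply Nat.cast_le.2
  apply card_le_card
  intro N hN
  rw [mem_filter] at hN ⊢
  refine ⟨hN.1, fun hgood => hN.2 ?_⟩
  intro h hh0 hhA hfix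
  have h1 := hgood h hh0 hhA hfix
  refine le_trans (le_of_eq ?_) h1
  unfold expected
  rw [mul_assoc]
  congr 2

end Pool.Agent.Results.MP_0bf1d2_nt.ChenArguments
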