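import Pool.Agent.K4H18.GV.G15

set_option autoImplicit false

/-!
# The Gaussian law over the integer arguments in Schinzel's Goldbach-type problem, for almost all `N`

For an arbitrary nonconstant polynomial `G` with positive leading coefficient and distinct irreducible
polynomials `F_1, …, F_k` (`F_i = X` is allowed), for all but `M / log^U M` of the `N ≤ M` for which
`N - G(n)` has no fixed prime divisor: over the positive integers `n` for which `N - G(n)` is a prime, the
numbers of the distinct prime factors of `F_1(n), …, F_k(n)` are asymptotically independent and normally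
distributed with mean and variance `log log X(N)`.
-/

namespace Pool.Agent.Results.MP_0bf1d2_nt.GaussianIntegerArguments

open Finset Polynomial ProbabilityTheory

variable {k : ℕ}

/-- `F_1, …, F_k` are irreducible nonconstant polynomials with integer coefficients and `F_i ≠ ± F_j` for
`i ≠ j` -/
def Family (F : Fin k → ℤ[X]) : Prop :=
  (∀ i, Irreducible (F i) ∧ 0 < (F i).natDegree) ∧ ∀ i j, i ≠ j → ¬ Associated (F i) (F j)

/-- `X(N)`: the number of the positive integers `n` with `N - G(n) > 0` -/
noncomputable def XN (G : ℤ[X]) (N : ℕ) : ℕ := {n : ℕ | 1 ≤ n ∧ 0 < (N : ℤ) - G.eval (n : ℤ)}.ncard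

/-- no prime divides `N - G(n)` for all integers `n` -/
def NoFixedDivisor (G : ℤ[X]) (N : ℕ) : Prop :=
  ∀ q : ℕ, q.Prime → ∃ n : ℤ, ¬ (q : ℤ) ∣ (N : ℤ) - G.eval n

/-- the positive integers `n` for which `N - G(n)` is a (positive) prime -/
def Arguments (G : ℤ[X]) (N : ℕ) : Set ℕ := {n : ℕ | 1 ≤ n ∧ ((N : ℤ) - G.eval (n : ℤ)).toNat.Prime}

/-- the positive integers `n` for which `N - G(n)` is a prime and, for every `i`, the number of the distinct
prime factors of `F_i(n)` is at most `log log X(N) + t_i √(log log X(N))` -/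
def Below (F : Fin k → ℤ[X]) (G : ℤ[X]) (N : ℕ) (t : Fin k → ℝ) : Set ℕ :=
  {n ∈ Arguments G N | ∀ i, (((F i).eval (n : ℤ)).natAbs.primeFactors.card : ℝ) ≤
    Real.log (Real.log (XN G N)) + t i * √(Real.log (Real.log (XN G N)))}

/-- `N - G(n)` is a prime for some positive integer `n`, and over these `n` the standardised numbers of the prime
factors of `F_1(n), …, F_k(n)` have, up to `ε`, the joint distribution function of `k` independent standard
normal variables -/
def Gaussian (F : Fin k → ℤ[X]) (G : ℤ[X]) (ε : ℝ) (N : ℕ) : Prop :=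
  0 < (Arguments G N).ncard ∧ ∀ t : Fin k → ℝ,
    |((Below F G N t).ncard : ℝ) - (Arguments G N).ncard * ∏ i, cdf (gaussianReal 0 1) (t i)| ≤
      ε * (Arguments G N).ncard

open Classical in
/-- **The Gaussian law over the integer arguments.** Let `G` be a nonconstant polynomial with positive leading
coefficient and `F_1, …, F_k` a family of distinct irreducible polynomials as above. For all `U` and `ε > 0`, for
all sufficiently large `M`: all but at most `M / log^U M` of the `N ≤ M` satisfy: if `N - G(x)` has no fixed prime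
divisor, then the joint Gaussian law holds up to `ε` over the positive integers `n` with `N - G(n)` prime,
uniformly in `t_1, …, t_k`. -/
theorem result (G : ℤ[X]) (hG : 1 ≤ G.natDegree) (hGl : 0 < G.leadingCoeff) (F : Fin k → ℤ[X]) (hF : Family F)
    (U : ℕ) (ε : ℝ) (hε : 0 < ε) : ∃ M₀ : ℕ, ∀ M : ℕ, M₀ ≤ M →
    (((Icc 1 M).filter (fun N : ℕ => ¬ (NoFixedDivisor G N → Gaussian F G ε N))).card : ℝ) ≤ M / Real.log M ^ U := by
  obtain ⟨M₀, hM⟩ := Pool.Agent.K4H18.GV.almost_gauss false G hG hGl F
    ⟨fun i => (hF.1 i).1, fun i => (hF.1 i).2, fun he => absurd he (by decide), hF.2⟩ U ε hε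
  refine ⟨M₀, fun M hMM => le_trans ?_ (hM M hMM)⟩
  apply Nat.cast_le.2
  apply card_le_card
  intro N hN
  rw [mem_filter] at hN ⊢
  refine ⟨hN.1, fun hgood => hN.2 ?_⟩
  intro hfix
  have hA : Pool.Agent.K4H18.GV.Ar false G N = Arguments G N := by
    ext n
    unfold Pool.Agent.K4H18.GV.Ar Arguments Pool.Agent.K4H18.GV.ar
    rw [Set.mem_setOf_eq, Set.mem_setOf_eq]
    constructor
    · rintro ⟨h1, -, h3⟩
      exact ⟨h1, h3⟩
    · rintro ⟨h1, h3⟩
      exact ⟨h1, fun he => absurd he (by decide), h3⟩
  have hB : ∀ t, Pool.Agent.K4H18.GV.Bl false G F N t = Below F G N t := by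
    intro t
    unfold Pool.Agent.K4H18.GV.Bl Below
    rw [hA]
    rfl
  obtain ⟨h1, h2⟩ := hgood (fun q hq => by
    obtain ⟨n, hn⟩ := hfix q hq
    exact ⟨n, fun he => absurd he (by decide), hn⟩)
  refine ⟨by rw [hA] at h1; exact h1, fun t => ?_⟩
  have h3 := h2 t
  rw [hA, hB] at h3
  exact h3

end Pool.Agent.Results.MP_0bf1d2_nt.GaussianIntegerArguments
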