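import Pool.Agent.K4H18.CH.H16

set_option autoImplicit false

/-!
# Szemerédi's theorem with narrow differences for the arguments of Schinzel's Goldbach-type problem

For arbitrary polynomials `F_1, …, F_g, G`, for all but `M / log^U M` of the `N ≤ M` and for all integers
`h` with `|h| ≤ log^A N` for which there is no fixed prime divisor: every subset of positive relative
density of the set of the primes `p` such that `N - G(p)` is a prime, the `F_i(p)` are almost primes and
(if `h ≠ 0`) `p + h` has at most two prime factors contains progressions of any given length whose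
common difference is at most a fixed power of the logarithm.
-/

namespace Pool.Agent.Results.MP_0bf1d2_nt.NarrowProgressions

open Finset Polynomial

variable {g : ℕ}

/-- `k` is a nonzero integer with at most `t` prime factors, counted with multiplicity, all of
them larger than `y` -/
def Rough (t : ℕ) (y : ℝ) (k : ℤ) : Prop :=
  k ≠ 0 ∧ k.natAbs.primeFactorsList.length ≤ t ∧ ∀ q : ℕ, q.Prime → (q : ℤ) ∣ k → y < q

/-- `X(N)`: the number of the positive integers `n` with `N - G(n) > 0` -/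
noncomputable def XN (G : ℤ[X]) (N : ℕ) : ℕ := {n : ℕ | 1 ≤ n ∧ 0 < (N : ℤ) - G.eval (n : ℤ)}.ncard

/-- no prime divides `n (n + h) F_1(n) ⋯ F_g(n) (N - G(n))` for all integers `n` -/
def NoFixedDivisor (F : Fin g → ℤ[X]) (G : ℤ[X]) (N : ℕ) (h : ℤ) : Prop :=
  ∀ q : ℕ, q.Prime → ∃ n : ℤ, ¬ (q : ℤ) ∣ n * (n + h) * (∏ i, (F i).eval n) * ((N : ℤ) - G.eval n)

/-- the primes `p` for which `N - G(p)` is a (positive) prime, every `F_i(p)` has at most `t` prime
factors, all `> X(N) ^ (1/t)`, and, unless `h = 0`, `p + h` has at most two prime factors, all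
`> X(N) ^ (1/9)` -/
def Arguments (t : ℕ) (F : Fin g → ℤ[X]) (G : ℤ[X]) (N : ℕ) (h : ℤ) : Set ℕ :=
  {p : ℕ | p.Prime ∧ ((N : ℤ) - G.eval (p : ℤ)).toNat.Prime ∧
    (h = 0 ∨ Rough 2 ((XN G N : ℝ) ^ (1 / 9 : ℝ)) (p + h)) ∧
    ∀ i, Rough t ((XN G N : ℝ) ^ (1 / (t : ℝ))) ((F i).eval (p : ℤ))}

open Classical in
/-- **Narrow progressions in the Goldbach–Schinzel arguments.** For every `D` there is a `t`, and for
all `k` and `δ > 0` there is a `B`, such that for all nonconstant `F_1, …, F_g, G` with positive leading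
coefficients and total degree at most `D` and all `A`, `U`, for all sufficiently large `M`: all but at
most `M / log^U M` of the `N ≤ M` have the following property for all integers `h` with
`|h| ≤ log^A N` for which `x (x + h) F_1 ⋯ F_g (N - G)` has no fixed prime divisor (also for `h = 0`):
every `S ⊆ Arguments` with `|S| ≥ δ |Arguments|` contains an arithmetic progression of `k` terms
whose common difference is positive and at most `log^B X(N)`. -/
theorem result (D : ℕ) : ∃ t : ℕ, 1 ≤ t ∧ ∀ (k : ℕ) (δ : ℝ), 0 < δ → ∃ B : ℕ,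
    ∀ (g : ℕ) (F : Fin g → ℤ[X]) (G : ℤ[X]), (∀ i, 1 ≤ (F i).natDegree) → (∀ i, 0 < (F i).leadingCoeff) →
    1 ≤ G.natDegree → 0 < G.leadingCoeff → (∑ i, (F i).natDegree) + G.natDegree ≤ D →
    ∀ A U : ℕ, ∃ M₀ : ℕ, ∀ M : ℕ, M₀ ≤ M →
    (((Icc 1 M).filter (fun N : ℕ => ¬ ∀ h : ℤ, (|h| : ℝ) ≤ Real.log N ^ A → NoFixedDivisor F G N h →
      ∀ S : Finset ℕ, (S : Set ℕ) ⊆ Arguments t F G N h → δ * ((Arguments t F G N h).ncard : ℝ) ≤ S.card →
      ∃ a d : ℕ, 1 ≤ d ∧ (d : ℝ) ≤ Real.log (XN G N) ^ B ∧ ∀ j < k, a + j * d ∈ S)).card : ℝ)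
      ≤ M / Real.log M ^ U := by
  obtain ⟨t, ht, h⟩ := Pool.Agent.K4H18.CH.final D
  refine ⟨t, ht, fun k δ hδ => ?_⟩
  obtain ⟨B, hB⟩ := h k δ hδ
  refine ⟨B, fun g F G hF hFl hG hGl hD A U => ?_⟩
  obtain ⟨M₀, hM⟩ := hB g F G hF hFl hG hGl hD A U
  refine ⟨M₀, fun M hMM => le_trans ?_ (hM M hMM)⟩
  apply Nat.cast_le.2
  apply card_le_card
  intro N hN
  rw [mem_filter] at hN ⊢
  refine ⟨hN.1, fun hgood => hN.2 ?_⟩
  intro h hhA hfix S hS hcard
  exact hgood h hhA hfix S (fun n hn => hS hn) hcard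

end Pool.Agent.Results.MP_0bf1d2_nt.NarrowProgressions
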